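import Mathlib
import Pool.Agent.Lib.helper23.BLH

set_option autoImplicit false

namespace Pool.Agent.Results.MP_566259_an.Main

open Pool.Agent.Lib.helper23.BL Filter

/-- The composites of the connecting maps. -/
noncomputable def chain {A : ℕ → Type} [∀ n, BanachLattice (A n)] (φ : ∀ n, A n →L[ℝ] A (n + 1))
    (n m : ℕ) : A n →L[ℝ] A (n + m) :=
  Nat.rec (motive := fun m => A n →L[ℝ] A (n + m)) (ContinuousLinearMap.id ℝ (A n))
    (fun m T => (φ (n + m)).comp T) m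

theorem result (E : Type) [BanachLattice E] [TopologicalSpace.SeparableSpace E] :
    ∃ (A : ℕ → Type) (_ : ∀ n, BanachLattice (A n)) (φ : ∀ n, A n →L[ℝ] A (n + 1))
      (ψ : ∀ n, A n →L[ℝ] E),
      (∀ n, Projective (A n) ∧ Semiprojective (A n)) ∧ (∀ n, IsHom (φ n) ∧ ‖φ n‖ ≤ 1) ∧
      (∀ n, IsHom (ψ n)) ∧ (∀ n x, ψ (n + 1) (φ n x) = ψ n x) ∧
      Dense (⋃ n, Set.range (ψ n)) ∧
      ∀ n x, Tendsto (fun m => ‖chain φ n m x‖) atTop (nhds ‖ψ n x‖) := by
  obtain ⟨y, y1, y2⟩ := exists_gen E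
  obtain ⟨q, hq⟩ := exists_surjective_nat (TQ ℕ)
  let R : ℕ → Set (Tm ℕ × ℝ) := fun n =>
    (fun j => ((q j).tm, ‖(q j).tm.eval y‖ + 1 / ((n : ℝ) + 1))) '' Set.Iio n
  have R0 : ∀ n, ∀ r ∈ R n, 0 < r.2 := by
    rintro n _ ⟨j, -, rfl⟩
    positivity
  choose A iA δ h using fun n => exists_univ (R n) fun r hr => (R0 n r hr).le
  choose φ f1 f2 f3 using fun n => (h n).ext (A (n + 1)) (δ (n + 1)) 1 zero_le_one (h (n + 1)).gen
    (by
      rintro _ ⟨j, hj, rfl⟩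
      refine ((h (n + 1)).rel _ ⟨j, hj.trans n.lt_succ_self, rfl⟩).trans ?_
      rw [one_mul]
      exact add_le_add_right (Nat.one_div_le_one_div n.le_succ) _)
  choose ψ p1 p2 p3 using fun n => (h n).ext E y 1 zero_le_one y1 (by
    rintro _ ⟨j, -, rfl⟩
    rw [one_mul]
    exact le_add_of_nonneg_right (by positivity))
  have c1 : ∀ n x, ψ (n + 1) (φ n x) = ψ n x := fun n => DFunLike.congr_fun
    (hom_ext (h n).dense ((p1 _).comp (f1 n)) (p1 n) fun i => by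
      rw [ContinuousLinearMap.comp_apply, f3, p3, p3])
  have ev : ∀ n (t : Tm ℕ), ψ n (t.eval (δ n)) = t.eval y := fun n t => by
    rw [(p1 n).eval, funext (p3 n)]
  have hp := fun n => (h n).projective ((Set.finite_Iio n).image _) (R0 n)
  refine ⟨A, iA, φ, ψ, fun n => ⟨hp n, (hp n).semi⟩, fun n => ⟨f1 n, f2 n⟩, p1, c1,
    y2.mono ?_, fun n x => ?_⟩
  · rintro _ ⟨t, rfl⟩
    exact Set.mem_iUnion.2 ⟨0, _, ev 0 t⟩
  have key : ∀ m, (∀ z, ‖chain φ n m z‖ ≤ ‖z‖) ∧ (∀ z, ψ (n + m) (chain φ n m z) = ψ n z) ∧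
      ∀ t : Tm ℕ, chain φ n m (t.eval (δ n)) = t.eval (δ (n + m)) := fun m => by
    induction m with
    | zero => exact ⟨fun _ => le_rfl, fun _ => rfl, fun _ => rfl⟩
    | succ m ih =>
      refine ⟨fun z => ((φ (n + m)).le_opNorm _).trans ((mul_le_of_le_one_left (norm_nonneg _)
        (f2 _)).trans (ih.1 z)), fun z => (c1 (n + m) _).trans (ih.2.1 z), fun t => ?_⟩
      change φ (n + m) (chain φ n m (t.eval (δ n))) = _
      rw [ih.2.2, (f1 _).eval, funext (f3 _)]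
      rfl
  have np : ∀ k z, ‖ψ k z‖ ≤ ‖z‖ := fun k z =>
    ((ψ k).le_opNorm z).trans (mul_le_of_le_one_left (norm_nonneg _) (p2 k))
  refine tendsto_order.2 ⟨fun a ha => Eventually.of_forall fun m => ha.trans_le ?_, fun a ha => ?_⟩
  · rw [← (key m).2.1]
    exact np _ _
  obtain ⟨t, ht⟩ := Metric.denseRange_iff.1 (dense_rat (h n).dense) x ((a - ‖ψ n x‖) / 3)
    (by linarith)
  obtain ⟨j, rfl⟩ := hq t
  obtain ⟨N, hN⟩ := exists_nat_one_div_lt (show 0 < (a - ‖ψ n x‖) / 3 by linarith)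
  filter_upwards [eventually_gt_atTop j, eventually_ge_atTop N] with m h1 h2
  rw [dist_eq_norm] at ht
  have a1 := (h (n + m)).rel _ ⟨j, show j < n + m by omega, rfl⟩
  have a2 : 1 / (((n + m : ℕ) : ℝ) + 1) ≤ 1 / ((N : ℝ) + 1) := Nat.one_div_le_one_div (by omega)
  have a3 := norm_sub_norm_le (chain φ n m x) (chain φ n m ((q j).tm.eval (δ n)))
  have a4 := norm_sub_norm_le (ψ n ((q j).tm.eval (δ n))) (ψ n x)
  rw [← map_sub, (key m).2.2] at a3
  rw [← map_sub, ev] at a4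
  have a5 := (key m).1 (x - (q j).tm.eval (δ n))
  have a6 := np n ((q j).tm.eval (δ n) - x)
  rw [norm_sub_rev] at a6
  simp only at a1
  linarith

end Pool.Agent.Results.MP_566259_an.Main
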